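import Pool.Agent.H32.MS.NotInv
import Pool.Agent.H32.MS.Lat

set_option autoImplicit false

/-!
The rational functions `f = z² ((z - 7) / (7 z + 1))⁵` and `g = -1 / f` of degree seven have the
same multiplier spectrum, and so do their iterates `f^k` and `g^k`. For even `k` these are equal.
For odd `k` they are neither conjugate nor elementarily equivalent, and `f^k` is not a Lattès map:
there are counterexamples of degree `7^k` for every odd `k`.

In degree seven every elementary transformation is a conjugation, because seven is a prime number.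
This is not so for the iterates. We use the following invariant of elementary transformations of a
rational function `F`: above some fixed critical point of `F` there lies, under some iterate of
`F`, a point whose local degree is divisible by five.
-/

open Polynomial Filter

namespace Pool.Agent.Results.MP_af33d6_an.AllOddIterates

noncomputable section

/-- the composition `f ∘ g` of rational functions -/
def comp (f g : RatFunc ℂ) : RatFunc ℂ := aeval g f.num / aeval g f.denom

/-- the degree of a rational function -/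
def deg (f : RatFunc ℂ) : ℕ := max f.num.natDegree f.denom.natDegree

/-- the `n`-th compositional iterate, `iter f 0 = z` -/
def iter (f : RatFunc ℂ) (n : ℕ) : RatFunc ℂ := (comp f)^[n] RatFunc.X

/-- the polynomial whose roots are the finite fixed points of `F`, with multiplicities -/
def fixPoly (F : RatFunc ℂ) : ℂ[X] := F.num - X * F.denom

/-- the multiplier `F' z` of `F` at a finite fixed point `z` -/
def mult (F : RatFunc ℂ) (z : ℂ) : ℂ :=
  (derivative F.num * F.denom - F.num * derivative F.denom).eval z / (F.denom.eval z) ^ 2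

/-- the multiplier of `F` at the fixed point `∞`: the derivative of `1 / F (1 / u)` at `u = 0` -/
def multInf (F : RatFunc ℂ) : ℂ := F.denom.coeff (deg F - 1) / F.num.coeff (deg F)

/-- the multiset of the multipliers of the `deg F + 1` fixed points of `F` on the sphere, counted
with multiplicity; the multiplicity of `∞` as a fixed point is `deg F + 1` minus the degree of
`fixPoly F` -/
def fixMultipliers (F : RatFunc ℂ) : Multiset ℂ :=
  (fixPoly F).roots.map (mult F) +
    Multiset.replicate (deg F + 1 - (fixPoly F).natDegree) (multInf F)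

/-- `f` and `g` have the same multiplier spectrum: for every `n ≥ 1` the multisets of multipliers
at the fixed points of the `n`-th iterates agree -/
def SameSpectrum (f g : RatFunc ℂ) : Prop :=
  ∀ n : ℕ, 1 ≤ n → fixMultipliers (iter f n) = fixMultipliers (iter g n)

/-- conjugate by a Möbius transformation: `m ∘ f = g ∘ m` -/
def Conjugate (f g : RatFunc ℂ) : Prop := ∃ m : RatFunc ℂ, deg m = 1 ∧ comp m f = comp g m

/-- `g = h₂ ∘ h₁` is an elementary transformation of `f = h₁ ∘ h₂` -/
def ElemTransform (f g : RatFunc ℂ) : Prop :=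
  ∃ h₁ h₂ : RatFunc ℂ, f = comp h₁ h₂ ∧ g = comp h₂ h₁

/-- a finite chain of elementary transformations leads from `f` to `g` -/
def ElemEquivalent (f g : RatFunc ℂ) : Prop := Relation.ReflTransGen ElemTransform f g

/-- `f` is a Lattès map: there are a lattice `ℤ ω₁ + ℤ ω₂`, an affine map `z ↦ a z + b` with
`a ω₁, a ω₂` in the lattice and a nonconstant meromorphic function `θ` with periods `ω₁, ω₂` such
that `f (θ z) = θ (a z + b)` (as meromorphic functions) -/
def Lattes (f : RatFunc ℂ) : Prop :=
  ∃ (ω₁ ω₂ a b : ℂ) (θ : ℂ → ℂ), LinearIndependent ℝ ![ω₁, ω₂] ∧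
    (∃ m₁ n₁ m₂ n₂ : ℤ, a * ω₁ = (m₁ : ℂ) * ω₁ + (n₁ : ℂ) * ω₂ ∧
      a * ω₂ = (m₂ : ℂ) * ω₁ + (n₂ : ℂ) * ω₂) ∧
    MeromorphicOn θ Set.univ ∧
    (∀ z : ℂ, θ (z + ω₁) = θ z ∧ θ (z + ω₂) = θ z) ∧
    (¬ ∃ c : ℂ, ∀ᶠ z in codiscrete ℂ, θ z = c) ∧
    (∀ᶠ z in codiscrete ℂ, RatFunc.eval (RingHom.id ℂ) (θ z) f = θ (a * z + b))

open Pool.Agent.H884R3.Ms in
theorem same (k : ℕ) (hk : 1 ≤ k) :
    Pool.Agent.H884R3.Ms.SameSpectrum (Pool.Agent.Helper881.Gp.iter fR k)
      (Pool.Agent.Helper881.Gp.iter gR k) := by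
  intro n hn
  rw [Pool.Agent.H32.MS.iter_iter _ Pool.Agent.H32.MS.deg_f1,
    Pool.Agent.H32.MS.iter_iter _ Pool.Agent.H32.MS.deg_g1]
  exact sameSpectrum _ (Nat.mul_pos hk hn)

/-- Let `f = z² ((z - 7) / (7 z + 1))⁵` and `g = -1 / f`. For every `k ≥ 1` the iterates `f^k` and
`g^k` have degree `7^k` and the same multiplier spectrum, and `f^k` is not a Lattès map. If `k` is
odd, then `f^k` and `g^k` are neither conjugate nor elementarily equivalent. If `k` is even, they
are equal. -/
theorem result : ∃ f g : RatFunc ℂ,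
    f = RatFunc.X ^ 2 * ((RatFunc.X - 7) / (7 * RatFunc.X + 1)) ^ 5 ∧ g = -1 / f ∧
      ∀ k : ℕ, 1 ≤ k →
        deg (iter f k) = 7 ^ k ∧ deg (iter g k) = 7 ^ k ∧
        SameSpectrum (iter f k) (iter g k) ∧ ¬ Lattes (iter f k) ∧
        (Odd k → ¬ Conjugate (iter f k) (iter g k) ∧ ¬ ElemEquivalent (iter f k) (iter g k)) ∧
        (Even k → iter f k = iter g k) := by
  refine ⟨Pool.Agent.H884R3.Ms.fR, Pool.Agent.H884R3.Ms.gR, rfl, rfl, fun k hk => ?_⟩
  have hf := Pool.Agent.H32.MS.deg_f1
  have hg := Pool.Agent.H32.MS.deg_g1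
  have hfk := Pool.Agent.H32.MS.deg_iter _ hf k
  have hgk := Pool.Agent.H32.MS.deg_iter _ hg k
  rw [Pool.Agent.H884R3.Ms.deg_fR] at hfk
  rw [Pool.Agent.H884R3.Ms.deg_gR] at hgk
  have hfk1 := Pool.Agent.H32.MS.one_le_deg_iter hf k
  have key : Odd k → ¬ Pool.Agent.H884R3.Ms.ElemEquivalent
      (Pool.Agent.Helper881.Gp.iter Pool.Agent.H884R3.Ms.fR k)
      (Pool.Agent.Helper881.Gp.iter Pool.Agent.H884R3.Ms.gR k) := fun ho h =>
    Pool.Agent.H32.MS.not_inv_g k ho
      (Pool.Agent.H32.MS.inv_equiv hfk1 h (Pool.Agent.H32.MS.inv_f k hk)).1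
  refine ⟨hfk, hgk, same k hk, Pool.Agent.H32.MS.not_lattes_iter k hk, fun ho => ⟨?_, key ho⟩, ?_⟩
  · intro h
    exact key ho (Relation.ReflTransGen.single (Pool.Agent.H32.MS.elem_of_conj hfk1 h))
  · rintro ⟨j, rfl⟩
    have e : j + j = 2 * j := by ring
    have h1 := Pool.Agent.H884R3.Ms.iter_f (2 * j)
    have h2 := (Pool.Agent.H884R3.Ms.iter_g j).1
    rw [e]
    exact h1.trans h2.symm

end

end Pool.Agent.Results.MP_af33d6_an.AllOddIterates
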