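import Pool.Agent.H64.MS.G8
import Pool.Agent.H64.MS.G9
import Pool.Agent.H64.MS.Sp2
import Pool.Agent.H64.MS.Sp3
import Pool.Agent.H64.MS.Lb
import Pool.Agent.H64.MS.I3

set_option autoImplicit false

/-!
Let `d` be an odd number such that neither `d - 1` nor `d + 1` is a power of two. There is a rational
function `f` of degree `d` such that `f` and `1 / f` have the same multiplier spectrum but are neither
conjugate nor elementarily equivalent, and neither of them is a Lattès map. If moreover neither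
`d - 1` nor `d + 1` is three times a power of two, such `f` fill uncountably many conjugacy classes.
-/

open Polynomial Filter

namespace Pool.Agent.Results.MP_af33d6_an.UncountablyManyClasses

noncomputable section

/-- the composition `f ∘ g` of rational functions -/
def comp (f g : RatFunc ℂ) : RatFunc ℂ := aeval g f.num / aeval g f.denom

/-- the degree of a rational function -/
def deg (f : RatFunc ℂ) : ℕ := max f.num.natDegree f.denom.natDegree

/-- the `n`-th compositional iterate, `iter f 0 = z` -/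
def iter (f : RatFunc ℂ) (n : ℕ) : RatFunc ℂ := (comp f)^[n] RatFunc.X

/-- the polynomial whose roots are the finite fixed points of `F`, with multiplicities -/
def fixPoly (F : RatFunc ℂ) : ℂ[X] := F.num - X * F.denom

/-- the multiplier `F' z` of `F` at a finite fixed point `z` -/
def mult (F : RatFunc ℂ) (z : ℂ) : ℂ :=
  (derivative F.num * F.denom - F.num * derivative F.denom).eval z / (F.denom.eval z) ^ 2

/-- the multiplier of `F` at the fixed point `∞`: the derivative of `1 / F (1 / u)` at `u = 0` -/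
def multInf (F : RatFunc ℂ) : ℂ := F.denom.coeff (deg F - 1) / F.num.coeff (deg F)

/-- the multiset of the multipliers of the `deg F + 1` fixed points of `F` on the sphere, counted
with multiplicity; the multiplicity of `∞` as a fixed point is `deg F + 1` minus the degree of
`fixPoly F` -/
def fixMultipliers (F : RatFunc ℂ) : Multiset ℂ :=
  (fixPoly F).roots.map (mult F) +
    Multiset.replicate (deg F + 1 - (fixPoly F).natDegree) (multInf F)

/-- `f` and `g` have the same multiplier spectrum: for every `n ≥ 1` the multisets of multipliers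
at the fixed points of the `n`-th iterates agree -/
def SameSpectrum (f g : RatFunc ℂ) : Prop :=
  ∀ n : ℕ, 1 ≤ n → fixMultipliers (iter f n) = fixMultipliers (iter g n)

/-- conjugate by a Möbius transformation: `m ∘ f = g ∘ m` -/
def Conjugate (f g : RatFunc ℂ) : Prop := ∃ m : RatFunc ℂ, deg m = 1 ∧ comp m f = comp g m

/-- `g = h₂ ∘ h₁` is an elementary transformation of `f = h₁ ∘ h₂` -/
def ElemTransform (f g : RatFunc ℂ) : Prop :=
  ∃ h₁ h₂ : RatFunc ℂ, f = comp h₁ h₂ ∧ g = comp h₂ h₁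

/-- a finite chain of elementary transformations leads from `f` to `g` -/
def ElemEquivalent (f g : RatFunc ℂ) : Prop := Relation.ReflTransGen ElemTransform f g

/-- `f` is a Lattès map: there are a lattice `ℤ ω₁ + ℤ ω₂`, an affine map `z ↦ a z + b` with
`a ω₁, a ω₂` in the lattice and a nonconstant meromorphic function `θ` with periods `ω₁, ω₂` such
that `f (θ z) = θ (a z + b)` (as meromorphic functions) -/
def Lattes (f : RatFunc ℂ) : Prop :=
  ∃ (ω₁ ω₂ a b : ℂ) (θ : ℂ → ℂ), LinearIndependent ℝ ![ω₁, ω₂] ∧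
    (∃ m₁ n₁ m₂ n₂ : ℤ, a * ω₁ = (m₁ : ℂ) * ω₁ + (n₁ : ℂ) * ω₂ ∧
      a * ω₂ = (m₂ : ℂ) * ω₁ + (n₂ : ℂ) * ω₂) ∧
    MeromorphicOn θ Set.univ ∧
    (∀ z : ℂ, θ (z + ω₁) = θ z ∧ θ (z + ω₂) = θ z) ∧
    (¬ ∃ c : ℂ, ∀ᶠ z in codiscrete ℂ, θ z = c) ∧
    (∀ᶠ z in codiscrete ℂ, RatFunc.eval (RingHom.id ℂ) (θ z) f = θ (a * z + b))

/-- Let `d` be an odd number such that neither `d - 1` nor `d + 1` is a power of two, and let
`F 0, F 1, …` be a sequence of rational functions. Then there are rational functions `f` and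
`g = 1 / f` of degree `d` with the same multiplier spectrum which are not conjugate and not
elementarily equivalent, and neither of them is a Lattès map; and if moreover neither `d - 1` nor
`d + 1` is three times a power of two, then `f` is not conjugate to any `F n`. -/
theorem result (d : ℕ) (hd : Odd d) (h1 : ∀ a : ℕ, d ≠ 2 ^ a + 1) (h2 : ∀ a : ℕ, d + 1 ≠ 2 ^ a)
    (F : ℕ → RatFunc ℂ) :
    ∃ f g : RatFunc ℂ, g = 1 / f ∧ deg f = d ∧ deg g = d ∧ SameSpectrum f g ∧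
      ¬ Conjugate f g ∧ ¬ ElemEquivalent f g ∧ ¬ Lattes f ∧ ¬ Lattes g ∧
      ((∀ a : ℕ, d ≠ 3 * 2 ^ a + 1) → (∀ a : ℕ, d + 1 ≠ 3 * 2 ^ a) →
        ∀ n : ℕ, ¬ Conjugate f (F n)) := by
  have main : ∀ (a k j : ℕ) (γ : ℕ → ℂ), 1 ≤ a → 1 ≤ j → d = k + 2 ^ a * j → Odd k →
      ¬ 2 ^ a ∣ k - 1 → ¬ 2 ^ a ∣ k + 1 → Pool.Agent.H64.MG.Good k (2 ^ a) j γ →
      Pool.Agent.H64.MG.gR k (2 ^ a) j γ = 1 / Pool.Agent.H64.MG.fR k (2 ^ a) j γ ∧
      deg (Pool.Agent.H64.MG.fR k (2 ^ a) j γ) = d ∧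
      deg (Pool.Agent.H64.MG.gR k (2 ^ a) j γ) = d ∧
      SameSpectrum (Pool.Agent.H64.MG.fR k (2 ^ a) j γ) (Pool.Agent.H64.MG.gR k (2 ^ a) j γ) ∧
      ¬ Conjugate (Pool.Agent.H64.MG.fR k (2 ^ a) j γ) (Pool.Agent.H64.MG.gR k (2 ^ a) j γ) ∧
      ¬ ElemEquivalent (Pool.Agent.H64.MG.fR k (2 ^ a) j γ)
        (Pool.Agent.H64.MG.gR k (2 ^ a) j γ) ∧
      ¬ Lattes (Pool.Agent.H64.MG.fR k (2 ^ a) j γ) ∧
      ¬ Lattes (Pool.Agent.H64.MG.gR k (2 ^ a) j γ) := by
    intro a k j γ ha hj hpk hk hd1 hd2 hg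
    obtain ⟨ζ, η, hζ, hη, hζ1, hζ2, hη1, hη2, hn⟩ :=
      Pool.Agent.H62.MS.exists_zeta k a ha hk hd1 hd2
    have hm : Even (2 ^ a) := (Nat.even_pow).2 ⟨even_two, by omega⟩
    have hm0 : 0 < 2 ^ a := by positivity
    obtain ⟨e1, e2⟩ := Pool.Agent.H64.MG.deg_fR k (2 ^ a) j _ hk hm hm0 hg
    have e3 := e1.trans hpk.symm
    have e4 := e2.trans hpk.symm
    obtain ⟨d1, d2⟩ := Pool.Agent.H64.MG.AB_degree k (2 ^ a) j _ hk hm hg 1 le_rfl
    have hco := Pool.Agent.H64.MG.AB_coprime k (2 ^ a) j _ hk.pos hm0 hg 1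
    obtain ⟨z1, z2⟩ := Pool.Agent.H64.MG.A_at_zero k (2 ^ a) j _ hg 1 le_rfl
    refine ⟨?_, e3, e4, Pool.Agent.H64.MG.sameSpectrum k (2 ^ a) j _ hk hm hm0 hg ζ η hζ hη hζ1
      hζ2 hη1 hη2 hn, Pool.Agent.H64.MG.not_conj k (2 ^ a) j _ hk hm hm0 hg,
      Pool.Agent.H64.MG.not_elem k (2 ^ a) j _ hk hm hm0 hj hg, ?_, ?_⟩
    · unfold Pool.Agent.H64.MG.fR Pool.Agent.H64.MG.gR
      rw [one_div_div]
    · exact Pool.Agent.H64.MG.not_lattes_of_degrees _ _ hco
        (Pool.Agent.H64.MG.Bn_ne k (2 ^ a) j _ hg 1) (by omega)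
    · exact Pool.Agent.H64.MG.not_lattes_inv _ _ hco
        (Pool.Agent.H64.MG.An_ne k (2 ^ a) j _ hk hm hg 1 le_rfl) (by omega) z1 z2
  by_cases h34 : (∀ a : ℕ, d ≠ 3 * 2 ^ a + 1) ∧ (∀ a : ℕ, d + 1 ≠ 3 * 2 ^ a)
  · obtain ⟨a, k, j, ha, hj, hpk, hk, hd1, hd2⟩ :=
      Pool.Agent.H64.MG.exists_split3 d hd h1 h2 h34.1 h34.2
    have hm : Even (2 ^ a) := (Nat.even_pow).2 ⟨even_two, by omega⟩
    have hm0 : 0 < 2 ^ a := by positivity
    obtain ⟨c, hc, hF⟩ := Pool.Agent.H64.MG.many k (2 ^ a) j hk hm hm0 hj F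
    have hg := Pool.Agent.H64.MG.good_gc k (2 ^ a) j hj hk.pos c hc
    obtain ⟨r1, r2, r3, r4, r5, r6, r7, r8⟩ := main a k j _ ha (by omega) hpk hk hd1 hd2 hg
    exact ⟨_, _, r1, r2, r3, r4, r5, r6, r7, r8, fun _ _ => hF⟩
  · obtain ⟨a, k, ha, hpk, hk, hd1, hd2⟩ := Pool.Agent.H64.MG.exists_split1 d hd h1 h2
    have hm : Even (2 ^ a) := (Nat.even_pow).2 ⟨even_two, by omega⟩
    have hm0 : 0 < 2 ^ a := by positivity
    obtain ⟨r1, r2, r3, r4, r5, r6, r7, r8⟩ := main a k 1 _ ha le_rfl (by rw [mul_one]; exact hpk)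
      hk hd1 hd2 (Pool.Agent.H64.MG.good_one k (2 ^ a) hk hm hm0)
    exact ⟨_, _, r1, r2, r3, r4, r5, r6, r7, r8, fun h3 h4 => absurd ⟨h3, h4⟩ h34⟩

end

end Pool.Agent.Results.MP_af33d6_an.UncountablyManyClasses
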